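import Pool.Agent.Q62.CC.Stm
import Pool.Agent.Helper186.ParamInt

/-!
# Project CC, job PRI: the primitive of a smooth function is smooth
-/

set_option autoImplicit false

open Set Filter Topology MeasureTheory
open scoped ENNReal ContDiff

namespace Pool.Agent.Q238.CC

open Pool.Agent.Q62.CC
open Pool.Agent.Helper186 (contDiffOn_paramInt)

/-- A function cut off in the second variable is smooth on the whole strip. -/
lemma cutoff_smooth {N₀ N₁ : ℝ} {F : ℝ → ℝ → ℝ}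
    (hF : ContDiffOn ℝ ∞ (fun z : ℝ × ℝ => F z.1 z.2) (Ioi 0 ×ˢ Ioo N₀ N₁)) {c : ℝ}
    (f : ContDiffBump c) (hf : Metric.closedBall c f.rOut ⊆ Ioo N₀ N₁) :
    ContDiffOn ℝ ∞ (fun z : ℝ × ℝ => f z.2 * F z.1 z.2) (Ioi 0 ×ˢ univ) := by
  rintro ⟨t, s⟩ ⟨ht, -⟩
  refine ContDiffAt.contDiffWithinAt ?_
  by_cases hs : s ∈ Ioo N₀ N₁
  · have h1 : ContDiffAt ℝ ∞ (fun z : ℝ × ℝ => F z.1 z.2) (t, s) :=
      hF.contDiffAt ((isOpen_Ioi.prod isOpen_Ioo).mem_nhds ⟨ht, hs⟩)
    have h2 : ContDiffAt ℝ ∞ (fun z : ℝ × ℝ => f z.2) (t, s) :=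
      (f.contDiff (n := (⊤ : ℕ∞))).contDiffAt.comp (t, s) contDiffAt_snd
    exact h2.mul h1
  · have hs' : s ∉ Metric.closedBall c f.rOut := fun h => hs (hf h)
    have hev : (fun z : ℝ × ℝ => f z.2 * F z.1 z.2) =ᶠ[𝓝 (t, s)] fun _ => 0 := by
      have h1 : ∀ᶠ z : ℝ × ℝ in 𝓝 (t, s), z.2 ∈ (Metric.closedBall c f.rOut)ᶜ :=
        continuous_snd.continuousAt.eventually_mem
          (Metric.isClosed_closedBall.isOpen_compl.mem_nhds hs')
      filter_upwards [h1] with z hz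
      have h2 : f z.2 = 0 := by
        apply f.zero_of_le_dist
        rw [mem_compl_iff, Metric.mem_closedBall, not_le] at hz
        exact hz.le
      show f z.2 * F z.1 z.2 = 0
      rw [h2, zero_mul]
    exact contDiffAt_const.congr_of_eventuallyEq hev

theorem t_PRI : S_PRI := by
  intro N₀ N₁ s₀ F hs₀ hF
  constructor
  · rintro ⟨t₁, x₁⟩ ⟨ht₁, hx₁⟩
    refine ContDiffAt.contDiffWithinAt ?_
    -- the interval `[a, b]`
    obtain ⟨a, ha0, ha⟩ := exists_between (lt_min hs₀.1 hx₁.1)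
    obtain ⟨b, hb, hb1⟩ := exists_between (max_lt hs₀.2 hx₁.2)
    have ha1 := lt_min_iff.1 ha
    have hb2 := max_lt_iff.1 hb
    have hab : a < b := ha1.1.trans hb2.1
    have hε : 0 < min (a - N₀) (N₁ - b) / 2 := by
      have : 0 < min (a - N₀) (N₁ - b) := lt_min (by linarith) (by linarith)
      linarith
    let f : ContDiffBump ((a + b) / 2 : ℝ) :=
      { rIn := (b - a) / 2
        rOut := (b - a) / 2 + min (a - N₀) (N₁ - b) / 2
        rIn_pos := by linarith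
        rIn_lt_rOut := by linarith }
    have hball : Metric.closedBall ((a + b) / 2) f.rOut ⊆ Ioo N₀ N₁ := by
      intro y hy
      rw [Real.closedBall_eq_Icc] at hy
      have e : f.rOut = (b - a) / 2 + min (a - N₀) (N₁ - b) / 2 := rfl
      have m1 := min_le_left (a - N₀) (N₁ - b)
      have m2 := min_le_right (a - N₀) (N₁ - b)
      rw [e] at hy
      have k1 := hy.1
      have k2 := hy.2
      constructor <;> linarith
    have hone : ∀ y ∈ Icc a b, f y = 1 := by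
      intro y hy
      apply f.one_of_mem_closedBall
      rw [Real.closedBall_eq_Icc]
      have e : f.rIn = (b - a) / 2 := rfl
      rw [e]
      constructor <;> linarith [hy.1, hy.2]
    have hsm := cutoff_smooth hF f hball
    -- the parametric integral
    let k : ℝ × (ℝ × ℝ) → ℝ := fun q =>
      f (s₀ + (q.2.2 - s₀) * q.1) * F q.2.1 (s₀ + (q.2.2 - s₀) * q.1)
    have hk : ContDiffOn ℝ ∞ k (univ ×ˢ (Ioi 0 ×ˢ univ)) := by
      have hg : ContDiffOn ℝ ∞ (fun q : ℝ × (ℝ × ℝ) => ((q.2.1, s₀ + (q.2.2 - s₀) * q.1) : ℝ × ℝ))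
          (univ ×ˢ (Ioi 0 ×ˢ univ)) := by
        apply ContDiff.contDiffOn
        fun_prop
      exact hsm.comp hg fun q hq => ⟨hq.2.1, mem_univ _⟩
    have hU : IsOpen (Ioi (0 : ℝ) ×ˢ (univ : Set ℝ)) := isOpen_Ioi.prod isOpen_univ
    have hint := contDiffOn_paramInt hU 1 hk
    have hG : ContDiffAt ℝ ∞ (fun z : ℝ × ℝ => (z.2 - s₀) * ∫ σ in (0 : ℝ)..1, k (σ, z)) (t₁, x₁) :=
      (contDiffAt_snd.sub contDiffAt_const).mul (hint.contDiffAt (hU.mem_nhds ⟨ht₁, mem_univ _⟩))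
    refine hG.congr_of_eventuallyEq ?_
    have hx : ∀ᶠ z : ℝ × ℝ in 𝓝 (t₁, x₁), z.2 ∈ Ioo a b :=
      continuous_snd.continuousAt.eventually_mem (isOpen_Ioo.mem_nhds ⟨ha1.2, hb2.2⟩)
    filter_upwards [hx] with z hz
    have e1 : (z.2 - s₀) * ∫ σ in (0 : ℝ)..1, k (σ, z) =
        ∫ s in s₀..z.2, f s * F z.1 s := by
      have := intervalIntegral.mul_integral_comp_add_mul (a := 0) (b := 1)
        (f := fun s => f s * F z.1 s) (c := z.2 - s₀) (d := s₀)
      rw [mul_zero, mul_one, add_zero, add_sub_cancel] at this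
      exact this
    rw [e1]
    refine intervalIntegral.integral_congr fun s hs => ?_
    have hs' : s ∈ Icc a b := by
      have hsub : uIcc s₀ z.2 ⊆ Icc a b :=
        (convex_Icc a b).ordConnected.uIcc_subset ⟨ha1.1.le, hb2.1.le⟩ ⟨hz.1.le, hz.2.le⟩
      exact hsub hs
    show F z.1 s = f s * F z.1 s
    rw [hone s hs', one_mul]
  · intro t s ht hs
    have hc : ContinuousOn (fun y => F t y) (Ioo N₀ N₁) :=
      hF.continuousOn.comp (f := fun y : ℝ => ((t, y) : ℝ × ℝ)) (by fun_prop) fun y hy => ⟨ht, hy⟩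
    have hsub : uIcc s₀ s ⊆ Ioo N₀ N₁ := (convex_Ioo N₀ N₁).ordConnected.uIcc_subset hs₀ hs
    exact intervalIntegral.integral_hasDerivAt_right (hc.mono hsub).intervalIntegrable
      (hc.stronglyMeasurableAtFilter isOpen_Ioo s hs) (hc.continuousAt (isOpen_Ioo.mem_nhds hs))

end Pool.Agent.Q238.CC
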