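import Pool.Agent.Q62.CC.Stm

/-!
# Project CC, job SMO: smoothness of the velocity and of the pressure
-/

set_option autoImplicit false

open Set Filter Topology MeasureTheory
open scoped ENNReal ContDiff

namespace Pool.Agent.Q238.CC

open Pool.Agent.Q62.CC
open Pool.Agent.Q61.NC (Sp pd)

lemma coord_smooth {d : ℕ} (i : Fin d) : ContDiff ℝ ∞ (fun x : Sp d => x i) :=
  (EuclideanSpace.proj i : Sp d →L[ℝ] ℝ).contDiff

lemma N2_smooth {d : ℕ} (j k : Fin d) : ContDiff ℝ ∞ (N2 (d := d) j k) := by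
  have h1 := (coord_smooth (d := d) j).pow 2
  have h2 := (coord_smooth (d := d) k).pow 2
  exact h1.add h2

lemma pair_smooth {d : ℕ} (j k : Fin d) :
    ContDiff ℝ ∞ (fun z : ℝ × Sp d => ((z.1, N2 j k z.2) : ℝ × ℝ)) :=
  contDiff_fst.prodMk ((N2_smooth j k).comp contDiff_snd)

/-- composition with `(t, N2 x)` -/
lemma comp_smooth {d : ℕ} {j k : Fin d} {N₀ N₁ : ℝ} {G : ℝ → ℝ → ℝ}
    (hG : ContDiffOn ℝ ∞ (fun z : ℝ × ℝ => G z.1 z.2) (Ioi 0 ×ˢ Ioo N₀ N₁)) :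
    ContDiffOn ℝ ∞ (fun z : ℝ × Sp d => G z.1 (N2 j k z.2))
      (Ioi 0 ×ˢ {x : Sp d | N2 j k x ∈ Ioo N₀ N₁}) :=
  hG.comp (pair_smooth j k).contDiffOn fun _ hz => ⟨hz.1, hz.2⟩

lemma snd_coord {d : ℕ} (i : Fin d) (s : Set (ℝ × Sp d)) :
    ContDiffOn ℝ ∞ (fun z : ℝ × Sp d => z.2 i) s :=
  ((coord_smooth i).comp contDiff_snd).contDiffOn

lemma fst_smooth {d : ℕ} {q : ℝ → ℝ} (hq : ContDiffOn ℝ ∞ q (Ioi 0)) (s : Set (Sp d)) :
    ContDiffOn ℝ ∞ (fun z : ℝ × Sp d => q z.1) (Ioi 0 ×ˢ s) :=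
  hq.comp contDiff_fst.contDiffOn fun _ hz => hz.1

theorem t_SMO (hp1 : S_ARG) (hp2 : S_PRI) : S_SMO := by
  intro d j k N₀ N₁ s₀ Ω Ωt Ω1 Ω2 q A At A1 A2 Q hjk hN₀ hs₀ hR hA
  set U : Set (Sp d) := {x : Sp d | N2 j k x ∈ Ioo N₀ N₁} with hU
  have hopen : IsOpen U := isOpen_Ioo.preimage (N2_smooth j k).continuous
  have hΩ : ContDiffOn ℝ ∞ (fun z : ℝ × Sp d => Ω z.1 (N2 j k z.2)) (Ioi 0 ×ˢ U) :=
    comp_smooth hR.smooth
  -- the integral
  have hsq : ContDiffOn ℝ ∞ (fun z : ℝ × ℝ => Ω z.1 z.2 ^ 2) (Ioi 0 ×ˢ Ioo N₀ N₁) :=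
    hR.smooth.pow 2
  have hI : ContDiffOn ℝ ∞ (fun z : ℝ × Sp d => (∫ s in s₀..N2 j k z.2, Ω z.1 s ^ 2) / 2)
      (Ioi 0 ×ˢ U) := by
    have h1 := (hp2 N₀ N₁ s₀ (fun t s => Ω t s ^ 2) hs₀ hsq).1
    have h2 : ContDiffOn ℝ ∞ (fun z : ℝ × Sp d => ∫ s in s₀..N2 j k z.2, Ω z.1 s ^ 2)
        (Ioi 0 ×ˢ U) := comp_smooth (G := fun t x => ∫ s in s₀..x, Ω t s ^ 2) h1
    exact h2.div_const 2
  -- the sum
  have hS : ContDiffOn ℝ ∞ (fun z : ℝ × Sp d => ∑ i, if i = j ∨ i = k then 0 else Q i z.1 * z.2 i)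
      (Ioi 0 ×ˢ U) := by
    refine ContDiffOn.sum fun i _ => ?_
    by_cases h : i = j ∨ i = k
    · simp only [if_pos h]
      exact contDiffOn_const
    · simp only [if_neg h]
      exact (fst_smooth (hA i).qsmooth U).mul (snd_coord i _)
  refine ⟨hopen, ?_, ?_, ?_⟩
  · rw [contDiffOn_euclidean]
    intro i
    by_cases hij : i = j
    · have e : (fun z : ℝ × Sp d => vel j k Ω A z.1 z.2 i) =
          fun z => -(z.2 k * Ω z.1 (N2 j k z.2)) := by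
        funext z
        show (if i = j then -(z.2 k * Ω z.1 (N2 j k z.2)) else _) = _
        rw [if_pos hij]
      rw [e]
      exact ((snd_coord k _).mul hΩ).neg
    · by_cases hik : i = k
      · have e : (fun z : ℝ × Sp d => vel j k Ω A z.1 z.2 i) =
            fun z => z.2 j * Ω z.1 (N2 j k z.2) := by
          funext z
          show (if i = j then -(z.2 k * Ω z.1 (N2 j k z.2)) else if i = k then
            z.2 j * Ω z.1 (N2 j k z.2) else _) = _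
          rw [if_neg hij, if_pos hik]
        rw [e]
        exact (snd_coord j _).mul hΩ
      · have e : (fun z : ℝ × Sp d => vel j k Ω A z.1 z.2 i) =
            fun z => A i z.1 (N2 j k z.2) := by
          funext z
          show (if i = j then -(z.2 k * Ω z.1 (N2 j k z.2)) else if i = k then
            z.2 j * Ω z.1 (N2 j k z.2) else A i z.1 (N2 j k z.2)) = _
          rw [if_neg hij, if_neg hik]
        rw [e]
        exact comp_smooth (hA i).smooth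
  · have harg : ContDiffOn ℝ ∞ (fun z : ℝ × Sp d => Complex.arg ⟨z.2 j, z.2 k⟩)
        (Ioi 0 ×ˢ (U ∩ cut j k)) :=
      (hp1 d j k hjk).2.1.comp contDiff_snd.contDiffOn fun _ hz => hz.2.2
    have hsub : (Ioi (0 : ℝ) ×ˢ (U ∩ cut j k) : Set (ℝ × Sp d)) ⊆ Ioi 0 ×ˢ U :=
      prod_mono subset_rfl inter_subset_left
    exact ((hI.mono hsub).sub ((fst_smooth hR.qsmooth _).mul harg)).sub (hS.mono hsub)
  · intro hq
    have h1 : ContDiffOn ℝ ∞ (fun z : ℝ × Sp d => (∫ s in s₀..N2 j k z.2, Ω z.1 s ^ 2) / 2 -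
        ∑ i, if i = j ∨ i = k then 0 else Q i z.1 * z.2 i) (Ioi 0 ×ˢ U) := hI.sub hS
    refine h1.congr fun z hz => ?_
    show (∫ s in s₀..N2 j k z.2, Ω z.1 s ^ 2) / 2 - q z.1 * Complex.arg ⟨z.2 j, z.2 k⟩
        - (∑ i, if i = j ∨ i = k then 0 else Q i z.1 * z.2 i) = _
    rw [hq z.1 hz.1, zero_mul, sub_zero]

end Pool.Agent.Q238.CC
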